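import Pool.Agent.H75.RNC.Cons
import Pool.Agent.H57.RN.B3Uniq
import Pool.Agent.RNB.B3H2

/-! # Project RN, plan C, B3: assembly of the grid net -/

set_option autoImplicit false

namespace RNB.B3

open Finset

/-- the vertical fields -/
structure VFields (g K : ℕ) : Prop where
  FV_supp : ∀ τ x y, FV g K τ x y ≠ 0 → -(((W g K).toNat : ℕ) : ℤ) ≤ x ∧
    x ≤ (((W g K).toNat : ℕ) : ℤ) ∧ 0 ≤ y ∧ y + 1 < (((M g K).toNat : ℕ) : ℤ)
  FV_dvd : ∀ τ x y, FV g K τ x y ≠ 0 → L g K ∣ x
  FV_gap : ∀ τ x y, lf g K x → FV g K τ x y ≠ 0 →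
    y ≠ (if up g K x then tip g K x else tip g K x - 1)
  FV_bound : ∀ x y, (∑ τ ∈ range (g * K), |FV g K τ x y|) ≤ ((2 ^ (K + 1) : ℕ) : ℤ)
  V_pos : ∀ τ x y, τ < g * K → 0 < FV g K τ x y → Xp g K τ x y < Xp g K τ x (y + 1)
  V_neg : ∀ τ x y, τ < g * K → FV g K τ x y < 0 → Xp g K τ x (y + 1) < Xp g K τ x y
  V_flat : ∀ τ τ' x y, τ' < τ → τ < g * K → FV g K τ' x y ≠ 0 → FV g K τ x y = 0 →
    Xp g K τ x y = Xp g K τ x (y + 1)
  V_super : ∀ τ x y, τ < g * K → FV g K τ x y ≠ 0 →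
    (∑ τ' ∈ range τ, |FV g K τ' x y|) ≤ |FV g K τ x y|

/-- the explicit grid net -/
noncomputable def gridNet (g K : ℕ) (hV : VFields g K) : GridNet (g * K) where
  W := (W g K).toNat
  M := (M g K).toNat
  L := (L g K).toNat
  lf := lf g K
  tip := tip g K
  up := up g K
  birth := birth g K
  snk := snk g K
  X := Xp g K
  FH := FH g K
  FV := FV g K
  c := c g K
  η := η g K
  M_pos := by have := h_M_pos (g := g) (K := K); omega
  L_ge := by
    have h1 := h_M_pos (g := g) (K := K)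
    have h2 : L g K = 2 * (M g K + 2) := rfl
    omega
  η_nonneg := fun x => H57B3.eta_nonneg x
  η_le := fun x => H57B3.eta_le x
  lf_range := fun x h => by
    have h1 := H57B3.lf_range h
    have h2 := h_W_nonneg (g := g) (K := K)
    constructor <;> omega
  lf_dvd := fun x h => by
    have h1 := H57B3.lf_dvd h
    rwa [Int.toNat_of_nonneg h_L_pos.le]
  tip_range := fun x h => by
    have h1 := H57B3.tip_range h
    constructor <;> omega
  birth_lt := fun x h => H57B3.birth_lt h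
  level_nonempty := fun τ h => H57B3.level_nonempty' h
  FH_supp := FH_supp
  FV_supp := hV.FV_supp
  FV_dvd := fun τ x y h => by
    rw [Int.toNat_of_nonneg h_L_pos.le]
    exact hV.FV_dvd τ x y h
  FV_gap := hV.FV_gap
  Q := 2 ^ (K + 1)
  FH_bound := fun x y => (FH_bound x y).trans (by
    push_cast
    exact pow_le_pow_right₀ (by norm_num) (Nat.le_succ K))
  FV_bound := hV.FV_bound
  H_nonneg := H_nonneg
  H_dir := H_dir
  H_flat := H_flat
  H_super := H_super
  V_pos := hV.V_pos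
  V_neg := hV.V_neg
  V_flat := hV.V_flat
  V_super := hV.V_super
  leaf_old := fun x τ h h1 h2 => H57B3.leaf_old h h1 h2
  leaf_snk := fun x h h1 => H57B3.leaf_snk h h1
  leaf_src := fun x h h1 => H57B3.leaf_src h h1
  cons_leaf := fun τ x y h h1 h2 h3 =>
    cons_leaf (fun _ _ _ => H57B3.leaf_unique) τ x y h h1 h2 h3
  cons_else := fun τ x y h h1 => cons_else (fun _ _ _ => H57B3.leaf_unique) τ x y h h1

end RNB.B3
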