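import Pool.Agent.RNB.B3Defs

/-! PROJECT RN, plan C, B3: conservation of the flows `FH`, `FV`. -/

set_option autoImplicit false

namespace RNB.B3

open Finset

variable {g K : ℕ}

namespace Cons

theorem ind_true {p : Prop} (h : p) : ind p = 1 := by simp [ind, h]
theorem ind_false {p : Prop} (h : ¬ p) : ind p = 0 := by simp [ind, h]
theorem ind_congr {p q : Prop} (h : p ↔ q) : ind p = ind q := by
  have : p = q := propext h
  subst this
  rfl

theorem B_pos : 0 < B K := by unfold B; positivity
theorem U_pos' (i : ℕ) : 0 < U g K i := by unfold U; exact pow_pos B_pos _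
theorem M_pos' : 0 < M g K := by
  unfold M; have : 0 < B K ^ g := pow_pos B_pos _; omega
theorem sg_pos : 0 < sg g K := by
  unfold sg; have : 0 < B K ^ g := pow_pos B_pos _; omega
theorem L_pos : 0 < L g K := by
  unfold L; have : 0 < M g K := M_pos'; omega
theorem S_pos (i : ℕ) : 0 < S g K i := by
  unfold S; exact mul_pos L_pos (pow_pos sg_pos _)
theorem Hn_nonneg (i : ℕ) : 0 ≤ Hn g K i := by
  induction i with
  | zero => simp [Hn]
  | succ i ih =>
    have h1 : 0 < B K ^ g := pow_pos B_pos _
    have h2 : 0 ≤ E g K := by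
      unfold E; have : 0 < M g K := M_pos'; positivity
    have h3 : 0 ≤ sg g K * Hn g K i := mul_nonneg sg_pos.le ih
    simp only [Hn]
    omega

theorem U_succ' {i : ℕ} (hi : i < g) : U g K i = B K * U g K (i + 1) := by
  unfold U
  rw [← pow_succ']
  congr 1
  omega

theorem aj_pos {i j : ℕ} (hj : j < K) : 0 < aj g K i j := by
  unfold aj
  have h1 : 0 < U g K (i + 1) := U_pos' _
  have h2 : (0 : ℤ) < (K : ℤ) - j := by omega
  positivity

theorem aj_lt {i j : ℕ} (hi : i < g) : aj g K i j < U g K i := by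
  unfold aj
  rw [U_succ' hi]
  have h1 : 0 < U g K (i + 1) := U_pos' _
  unfold B
  have h2 : (0 : ℤ) ≤ j := by positivity
  nlinarith

theorem aj_even' (i j : ℕ) : ∃ m, aj g K i j = 2 * m := ⟨((K : ℤ) - j) * U g K (i + 1), by
  unfold aj; ring⟩

theorem aj_ne {i j j' : ℕ} (h : j' < j) : aj g K i j < aj g K i j' := by
  unfold aj
  have h1 : 0 < U g K (i + 1) := U_pos' _
  have h2 : ((j' : ℤ)) < j := by exact_mod_cast h
  nlinarith

theorem U_dvd_M' (i : ℕ) : 2 * U g K i ∣ M g K := by
  unfold U M
  apply mul_dvd_mul_left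
  exact pow_dvd_pow _ (Nat.sub_le _ _)

theorem not_inner_outer {i j : ℕ} {y : ℤ} (hj : j < K) (h : inner g K i j y) :
    ¬ outer g K i j y := by
  intro h'
  have h1 := aj_pos (g := g) (i := i) hj
  obtain ⟨-, -, h2⟩ := h
  obtain ⟨-, -, h3⟩ := h'
  omega

theorem newb_disj {i j j' : ℕ} {y : ℤ} (hj : j < K) (hlt : j' < j) (h : newb g K i j y)
    (h' : newb g K i j' y) : False := by
  have h1 := aj_pos (g := g) (i := i) hj
  have h2 := aj_ne (g := g) (K := K) (i := i) hlt
  obtain ⟨m, hm⟩ := aj_even' (g := g) (K := K) i j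
  obtain ⟨m', hm'⟩ := aj_even' (g := g) (K := K) i j'
  rcases h with h | h <;> rcases h' with h' | h' <;>
    obtain ⟨-, -, h3⟩ := h <;> obtain ⟨-, -, h4⟩ := h' <;> omega

theorem not_newb_young {i j : ℕ} {y : ℤ} (hj : j < K) (h : young g K i j y) :
    ¬ newb g K i j y := by
  obtain ⟨j', hj', h'⟩ := h
  exact fun h => newb_disj hj hj' h h'

theorem young_nonneg {i j : ℕ} {y : ℤ} (h : young g K i j y) : 0 ≤ y := by
  obtain ⟨j', -, h | h⟩ := h
  · exact h.1
  · exact h.1

/-- interval telescoping -/
theorem ind_step (P : Prop) (A C x : ℤ) (h : P → A ≤ C) :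
    ind (P ∧ A ≤ x - 1 ∧ x - 1 < C) - ind (P ∧ A ≤ x ∧ x < C)
      = ind (P ∧ x = C) - ind (P ∧ x = A) := by
  by_cases hP : P
  · have := h hP
    simp only [hP, true_and, ind]
    split_ifs <;> omega
  · simp [hP, ind]

/-- the sum over the old columns -/
theorem sum_old (P : Prop) (i : ℕ) (x d : ℤ) :
    (∑ p ∈ Icc (-Hn g K i) (Hn g K i), ind (P ∧ x = p * S g K i + d))
      = ind (P ∧ old g K i (x - d)) := by
  classical
  by_cases h : P ∧ old g K i (x - d)
  · rw [ind_true h]
    obtain ⟨hP, p, hp1, hp2, hp3⟩ := h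
    rw [Finset.sum_eq_single p]
    · exact ind_true ⟨hP, by omega⟩
    · intro q _ hq
      apply ind_false
      rintro ⟨-, hx⟩
      apply hq
      have h1 : q * S g K i = p * S g K i := by omega
      exact mul_right_cancel₀ (S_pos i).ne' h1
    · intro hp
      exact absurd (Finset.mem_Icc.mpr ⟨hp1, hp2⟩) hp
  · rw [ind_false h]
    refine Finset.sum_eq_zero fun p hp => ?_
    apply ind_false
    rintro ⟨hP, hx⟩
    rw [Finset.mem_Icc] at hp
    exact h ⟨hP, p, hp.1, hp.2, by omega⟩

theorem pa_inj {i j : ℕ} {y : ℤ} {a b : ℕ} (h : pa g K i j y a = pa g K i j y b) : a = b := by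
  unfold pa at h
  have := mul_right_cancel₀ (S_pos (g := g) (K := K) (i + 1)).ne' h
  omega

theorem pa_nonneg {i j : ℕ} {y : ℤ} (hy : 0 ≤ y) (a : ℕ) : 0 ≤ pa g K i j y a := by
  unfold pa
  apply mul_nonneg _ (S_pos _).le
  have h1 : 0 < B K ^ g := pow_pos B_pos _
  have h2 : 0 ≤ sg g K * Hn g K i := mul_nonneg sg_pos.le (Hn_nonneg i)
  have h3 : 0 < M g K := M_pos'
  positivity

theorem sum_pa (P : Prop) (i j : ℕ) (y x e : ℤ) (he : e ≠ 0) :
    (∑ a ∈ range (2 ^ j), ind (P ∧ x = e * pa g K i j y a))
      = ind (P ∧ ∃ a : ℕ, a < 2 ^ j ∧ x = e * pa g K i j y a) := by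
  classical
  by_cases h : P ∧ ∃ a : ℕ, a < 2 ^ j ∧ x = e * pa g K i j y a
  · rw [ind_true h]
    obtain ⟨hP, a, ha, hx⟩ := h
    rw [Finset.sum_eq_single a]
    · exact ind_true ⟨hP, hx⟩
    · intro b _ hb
      apply ind_false
      rintro ⟨-, hx'⟩
      apply hb
      apply pa_inj (g := g) (K := K) (i := i) (j := j) (y := y)
      exact mul_left_cancel₀ he (by rw [← hx, ← hx'])
    · intro ha'
      exact absurd (Finset.mem_range.mpr ha) ha'
  · rw [ind_false h]
    refine Finset.sum_eq_zero fun a ha => ?_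
    apply ind_false
    rintro ⟨hP, hx⟩
    exact h ⟨hP, a, Finset.mem_range.mp ha, hx⟩

/-- horizontal divergence -/
theorem divH {i j : ℕ} (hj : j < K) (x y : ℤ) :
    FH2 g K i j (x - 1) y - FH2 g K i j x y
      = ind (inner g K i j y ∧ old g K i x) - ind (outer g K i j y ∧ old g K i x)
        + ind (LeafAt g K i j true y x) - ind (LeafAt g K i j false y x) := by
  have hs : 0 < S g K (i + 1) := S_pos _
  have e1 : (∑ p ∈ Icc (-Hn g K i) (Hn g K i), ind (inner g K i j y ∧
      p * S g K i - (y / 2 + 1) * S g K (i + 1) ≤ x - 1 ∧ x - 1 < p * S g K i))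
      - (∑ p ∈ Icc (-Hn g K i) (Hn g K i), ind (inner g K i j y ∧
      p * S g K i - (y / 2 + 1) * S g K (i + 1) ≤ x ∧ x < p * S g K i))
      = ind (inner g K i j y ∧ old g K i x)
        - ind (inner g K i j y ∧ old g K i (x + (y / 2 + 1) * S g K (i + 1))) := by
    rw [← Finset.sum_sub_distrib]
    have : ∀ p ∈ Icc (-Hn g K i) (Hn g K i),
        ind (inner g K i j y ∧
          p * S g K i - (y / 2 + 1) * S g K (i + 1) ≤ x - 1 ∧ x - 1 < p * S g K i)
        - ind (inner g K i j y ∧
          p * S g K i - (y / 2 + 1) * S g K (i + 1) ≤ x ∧ x < p * S g K i)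
        = ind (inner g K i j y ∧ x = p * S g K i + 0)
          - ind (inner g K i j y ∧ x = p * S g K i + -((y / 2 + 1) * S g K (i + 1))) := by
      intro p _
      rw [ind_step]
      · congr 1
        exact ind_congr (by rw [add_zero])
      · intro h
        have : 0 ≤ y / 2 + 1 := by have := h.1; omega
        nlinarith
    rw [Finset.sum_congr rfl this, Finset.sum_sub_distrib, sum_old, sum_old]
    simp
  have e2 : (∑ p ∈ Icc (-Hn g K i) (Hn g K i), ind (outer g K i j y ∧
      p * S g K i ≤ x - 1 ∧ x - 1 < p * S g K i + (y / 2 + 1) * S g K (i + 1)))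
      - (∑ p ∈ Icc (-Hn g K i) (Hn g K i), ind (outer g K i j y ∧
      p * S g K i ≤ x ∧ x < p * S g K i + (y / 2 + 1) * S g K (i + 1)))
      = ind (outer g K i j y ∧ old g K i (x - (y / 2 + 1) * S g K (i + 1)))
        - ind (outer g K i j y ∧ old g K i x) := by
    rw [← Finset.sum_sub_distrib]
    have : ∀ p ∈ Icc (-Hn g K i) (Hn g K i),
        ind (outer g K i j y ∧
          p * S g K i ≤ x - 1 ∧ x - 1 < p * S g K i + (y / 2 + 1) * S g K (i + 1))
        - ind (outer g K i j y ∧
          p * S g K i ≤ x ∧ x < p * S g K i + (y / 2 + 1) * S g K (i + 1))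
        = ind (outer g K i j y ∧ x = p * S g K i + (y / 2 + 1) * S g K (i + 1))
          - ind (outer g K i j y ∧ x = p * S g K i + 0) := by
      intro p _
      rw [ind_step]
      · congr 1
        exact ind_congr (by rw [add_zero])
      · intro h
        have : 0 ≤ y / 2 + 1 := by have := h.1; omega
        nlinarith
    rw [Finset.sum_congr rfl this, Finset.sum_sub_distrib, sum_old, sum_old]
    simp
  have e3 : (∑ a ∈ range (2 ^ j), ind (young g K i j y ∧ -pa g K i j y a ≤ x - 1 ∧
        x - 1 < pa g K i j y a))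
      - (∑ a ∈ range (2 ^ j), ind (young g K i j y ∧ -pa g K i j y a ≤ x ∧
        x < pa g K i j y a))
      = ind (young g K i j y ∧ ∃ a : ℕ, a < 2 ^ j ∧ x = 1 * pa g K i j y a)
        - ind (young g K i j y ∧ ∃ a : ℕ, a < 2 ^ j ∧ x = (-1) * pa g K i j y a) := by
    rw [← Finset.sum_sub_distrib, ← sum_pa _ _ _ _ _ _ one_ne_zero,
      ← sum_pa _ _ _ _ _ _ (by norm_num : (-1 : ℤ) ≠ 0), ← Finset.sum_sub_distrib]
    refine Finset.sum_congr rfl fun a _ => ?_
    rw [ind_step]
    · congr 1
      · exact ind_congr (by rw [one_mul])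
      · exact ind_congr (by rw [neg_one_mul])
    · intro h
      have := pa_nonneg (g := g) (K := K) (i := i) (j := j) (young_nonneg h) a
      omega
  have l1 : ind (LeafAt g K i j true y x)
      = ind (outer g K i j y ∧ old g K i (x - (y / 2 + 1) * S g K (i + 1)))
        + ind (young g K i j y ∧ ∃ a : ℕ, a < 2 ^ j ∧ x = 1 * pa g K i j y a) := by
    by_cases hy : young g K i j y
    · have ho : ¬ outer g K i j y := fun h => not_newb_young hj hy (Or.inr h)
      have hin : ¬ inner g K i j y := fun h => not_newb_young hj hy (Or.inl h)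
      rw [ind_false (p := outer g K i j y ∧ _) (fun h => ho h.1), zero_add]
      apply ind_congr
      unfold LeafAt
      simp [hy, ho]
    · rw [ind_false (p := young g K i j y ∧ _) (fun h => hy h.1), add_zero]
      apply ind_congr
      unfold LeafAt
      simp [hy]
  have l2 : ind (LeafAt g K i j false y x)
      = ind (inner g K i j y ∧ old g K i (x + (y / 2 + 1) * S g K (i + 1)))
        + ind (young g K i j y ∧ ∃ a : ℕ, a < 2 ^ j ∧ x = (-1) * pa g K i j y a) := by
    by_cases hy : young g K i j y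
    · have ho : ¬ outer g K i j y := fun h => not_newb_young hj hy (Or.inr h)
      have hin : ¬ inner g K i j y := fun h => not_newb_young hj hy (Or.inl h)
      rw [ind_false (p := inner g K i j y ∧ _) (fun h => hin h.1), zero_add]
      apply ind_congr
      unfold LeafAt
      simp [hy, hin]
    · rw [ind_false (p := young g K i j y ∧ _) (fun h => hy h.1), add_zero]
      apply ind_congr
      unfold LeafAt
      simp [hy]
  unfold FH2
  rw [l1, l2]
  linarith

/-- vertical divergence of the converters -/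
theorem divV {i j : ℕ} (hi : i < g) (hj : j < K) (x y : ℤ) :
    FVc g K i j x (y - 1) - FVc g K i j x y
      = ind (outer g K i j y ∧ old g K i x) - ind (inner g K i j y ∧ old g K i x) := by
  have ha := aj_pos (g := g) (i := i) hj
  have haU := aj_lt (K := K) (j := j) hi
  have hU : 0 < U g K i := U_pos' i
  obtain ⟨q, hq⟩ := U_dvd_M' (g := g) (K := K) i
  -- shift of the relative row
  have hr : ∀ r : ℤ, 0 ≤ r → r + 1 < 2 * U g K i →
      ((0 ≤ y - 1 ∧ y - 1 < M g K ∧ Rr g K i (y - 1) = r) ↔
        (0 ≤ y ∧ y < M g K ∧ Rr g K i y = r + 1)) := by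
    intro r hr0 hr1
    unfold Rr
    constructor
    · rintro ⟨h1, h2, h3⟩
      have h4 : y % (2 * U g K i) = r + 1 := by
        have e := Int.emod_add_mul_ediv (y - 1) (2 * U g K i)
        rw [h3] at e
        have : y = (r + 1) + (2 * U g K i) * ((y - 1) / (2 * U g K i)) := by linarith
        rw [this, Int.add_mul_emod_self_left]
        exact Int.emod_eq_of_lt (by omega) hr1
      refine ⟨by omega, ?_, h4⟩
      by_contra h5
      have h6 : y = M g K := by omega
      rw [h6, hq, Int.mul_emod_right] at h4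
      omega
    · rintro ⟨h1, h2, h3⟩
      have h4 : (y - 1) % (2 * U g K i) = r := by
        have e := Int.emod_add_mul_ediv y (2 * U g K i)
        rw [h3] at e
        have : y - 1 = r + (2 * U g K i) * (y / (2 * U g K i)) := by linarith
        rw [this, Int.add_mul_emod_self_left]
        exact Int.emod_eq_of_lt hr0 (by omega)
      refine ⟨?_, by omega, h4⟩
      by_contra h5
      have h6 : y = 0 := by omega
      rw [h6] at h3
      simp at h3
      omega
  have a1 : ind (old g K i x ∧ 0 ≤ y - 1 ∧ y - 1 < M g K ∧ Rr g K i (y - 1)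
        = U g K i - 1 + aj g K i j)
      = ind (old g K i x ∧ 0 ≤ y ∧ y < M g K ∧ Rr g K i y = U g K i + aj g K i j) := by
    apply ind_congr
    rw [hr (U g K i - 1 + aj g K i j) (by omega) (by omega)]
    constructor
    · rintro ⟨h1, h2, h3, h4⟩; exact ⟨h1, h2, h3, by omega⟩
    · rintro ⟨h1, h2, h3, h4⟩; exact ⟨h1, h2, h3, by omega⟩
  have a2 : ind (old g K i x ∧ 0 ≤ y - 1 ∧ y - 1 < M g K ∧ Rr g K i (y - 1)
        = U g K i - 1 - aj g K i j)
      = ind (old g K i x ∧ 0 ≤ y ∧ y < M g K ∧ Rr g K i y = U g K i - aj g K i j) := by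
    apply ind_congr
    rw [hr (U g K i - 1 - aj g K i j) (by omega) (by omega)]
    constructor
    · rintro ⟨h1, h2, h3, h4⟩; exact ⟨h1, h2, h3, by omega⟩
    · rintro ⟨h1, h2, h3, h4⟩; exact ⟨h1, h2, h3, by omega⟩
  unfold FVc
  rw [a1, a2]
  by_cases ho : old g K i x
  · by_cases hy : 0 ≤ y ∧ y < M g K
    · simp only [inner, outer, ho, hy.1, hy.2, true_and, and_true, ind]
      split_ifs <;> omega
    · have : ∀ p : Prop, ¬ (0 ≤ y ∧ y < M g K ∧ p) := fun p h => hy ⟨h.1, h.2.1⟩
      simp only [inner, outer, this, and_false, false_and, ind, if_false]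
      omega
  · simp [ho, ind]

/-- vertical divergence of the strands -/
theorem divS (τ : ℕ) (x y : ℤ) :
    FVs g K τ x (y - 1) - FVs g K τ x y
      = (ind (lf g K x ∧ birth g K x = τ ∧ y = max (home g K x) (tip g K x))
          - ind (lf g K x ∧ birth g K x = τ ∧ y = min (home g K x) (tip g K x)))
        * (if up g K x = snk g K x then 1 else -1) := by
  unfold FVs
  rw [← sub_mul]
  congr 1
  have h := ind_step (lf g K x ∧ birth g K x = τ) (min (home g K x) (tip g K x))
    (max (home g K x) (tip g K x)) y (fun _ => min_le_max)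
  have e1 : ∀ P Q R T : Prop, ((P ∧ Q) ∧ R ∧ T) ↔ (P ∧ Q ∧ R ∧ T) := by intros; tauto
  have e2 : ∀ P Q R : Prop, ((P ∧ Q) ∧ R) ↔ (P ∧ Q ∧ R) := by intros; tauto
  rw [ind_congr (e1 _ _ _ _), ind_congr (e1 _ _ _ _), ind_congr (e2 _ _ _),
    ind_congr (e2 _ _ _)] at h
  exact h

end Cons

open Cons in
/-- conservation in one formula -/
theorem cons_key (hu : ∀ x d d', IsLeaf g K x d → IsLeaf g K x d' → d = d')
    {τ : ℕ} (hτ : τ < g * K) (x y : ℤ) :
    FH g K τ (x - 1) y + FV g K τ x (y - 1) - FH g K τ x y - FV g K τ x y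
      = ind (lf g K x ∧ birth g K x = τ ∧ y = tip g K x) * (if snk g K x then 1 else -1) := by
  have hK : 0 < K := Nat.pos_of_ne_zero fun h => by subst h; simp at hτ
  have hj : τ % K < K := Nat.mod_lt _ hK
  have hi : τ / K < g := (Nat.div_lt_iff_lt_mul hK).mpr hτ
  have hdm : τ / K * K + τ % K = τ := Nat.div_add_mod' τ K
  have h1 := divH (g := g) (i := τ / K) hj x y
  have h2 := divV (g := g) (i := τ / K) (j := τ % K) hi hj x y
  have h3 := divS (g := g) (K := K) τ x y
  -- leaves of this level
  have h4 : ind (LeafAt g K (τ / K) (τ % K) true y x) - ind (LeafAt g K (τ / K) (τ % K) false y x)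
      = ind (lf g K x ∧ birth g K x = τ ∧ y = home g K x) * (if snk g K x then 1 else -1) := by
    have hbirth : ∀ d : LData, d.j < K → (d.i * K + d.j = τ ↔ d.i = τ / K ∧ d.j = τ % K) := by
      intro d hd
      constructor
      · intro h
        rw [← h]
        constructor
        · rw [Nat.mul_comm, Nat.mul_add_div hK, Nat.div_eq_of_lt hd, Nat.add_zero]
        · rw [Nat.mul_comm, Nat.mul_add_mod, Nat.mod_eq_of_lt hd]
      · rintro ⟨ha, hb⟩
        rw [ha, hb, hdm]
    by_cases hx : lf g K x
    · have hd : IsLeaf g K x (dat g K x) := by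
        unfold dat
        rw [dif_pos hx]
        exact hx.choose_spec
      have hkey : ∀ k : Bool, LeafAt g K (τ / K) (τ % K) k y x ↔
          (birth g K x = τ ∧ y = home g K x ∧ snk g K x = k) := by
        intro k
        constructor
        · intro h
          have : IsLeaf g K x ⟨τ / K, τ % K, k, y⟩ := ⟨hi, hj, h⟩
          have e := hu _ _ _ hd this
          refine ⟨?_, ?_, ?_⟩
          · unfold birth; rw [e]; exact hdm
          · unfold home; rw [e]
          · unfold snk; rw [e]
        · rintro ⟨ha, hb, hc⟩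
          have hd2 := hd
          obtain ⟨h5, h6, h7⟩ := hd2
          have h8 := (hbirth _ h6).mp ha
          unfold home at hb
          unfold snk at hc
          rw [h8.1, h8.2, hc, ← hb] at h7
          exact h7
      rw [ind_congr (hkey true), ind_congr (hkey false)]
      by_cases hb : birth g K x = τ <;> by_cases hy : y = home g K x <;>
        cases hs : snk g K x <;> simp [ind, hx, hb, hy]
    · have hkey : ∀ k : Bool, ¬ LeafAt g K (τ / K) (τ % K) k y x := by
        intro k h
        exact hx ⟨⟨τ / K, τ % K, k, y⟩, hi, hj, h⟩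
      rw [ind_false (hkey true), ind_false (hkey false)]
      simp [ind, hx]
  have hF : ∀ x' : ℤ, FH g K τ x' y = FH2 g K (τ / K) (τ % K) x' y := fun x' => by
    unfold FH; rw [if_pos hτ]
  have hV : ∀ y' : ℤ, FV g K τ x y' = FVc g K (τ / K) (τ % K) x y' + FVs g K τ x y' := fun y' => by
    unfold FV; rw [if_pos hτ]
  rw [hF, hF, hV, hV]
  have h5 : (ind (lf g K x ∧ birth g K x = τ ∧ y = max (home g K x) (tip g K x))
          - ind (lf g K x ∧ birth g K x = τ ∧ y = min (home g K x) (tip g K x)))
        * (if up g K x = snk g K x then 1 else -1)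
      + ind (lf g K x ∧ birth g K x = τ ∧ y = home g K x) * (if snk g K x then 1 else -1)
      = ind (lf g K x ∧ birth g K x = τ ∧ y = tip g K x) * (if snk g K x then 1 else -1) := by
    have hU : 0 < U g K ((dat g K x).i + 1) := U_pos' _
    cases hup : up g K x
    · have ht : tip g K x = home g K x - (U g K ((dat g K x).i + 1) - 1) := by
        unfold tip; rw [if_neg (by simp [hup])]
      rw [max_eq_left (by omega), min_eq_right (by omega)]
      cases hs : snk g K x <;> simp <;> linarith
    · have ht : tip g K x = home g K x + (U g K ((dat g K x).i + 1) - 1) := by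
        unfold tip; rw [if_pos hup]
      rw [max_eq_right (by omega), min_eq_left (by omega)]
      cases hs : snk g K x <;> simp <;> linarith
  linarith

theorem cons_leaf (hu : ∀ x d d', IsLeaf g K x d → IsLeaf g K x d' → d = d')
    (τ : ℕ) (x y : ℤ) (hτ : τ < g * K) (hx : lf g K x) (hb : birth g K x = τ)
    (hy : y = tip g K x) :
    FH g K τ (x - 1) y + FV g K τ x (y - 1)
      = FH g K τ x y + FV g K τ x y + (if snk g K x then 1 else -1) := by
  have := cons_key hu hτ x y
  rw [Cons.ind_true ⟨hx, hb, hy⟩, one_mul] at this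
  linarith

theorem cons_else (hu : ∀ x d d', IsLeaf g K x d → IsLeaf g K x d' → d = d')
    (τ : ℕ) (x y : ℤ) (hτ : τ < g * K)
    (h : ¬ (lf g K x ∧ birth g K x = τ ∧ y = tip g K x)) :
    FH g K τ (x - 1) y + FV g K τ x (y - 1) = FH g K τ x y + FV g K τ x y := by
  have := cons_key hu hτ x y
  rw [Cons.ind_false h, zero_mul] at this
  linarith

end RNB.B3
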