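import Pool.Agent.H75.RNC.Assemble
import Pool.Agent.H88.RNC.B3Bound
import Pool.Agent.H50.RNC.H12

/-! # Project RN, plan C: S11118 from the vertical fields -/

set_option autoImplicit false

namespace RNB.B3

theorem final (hV : ∀ g K : ℕ, 1 ≤ g → 1 ≤ K → VFields g K) :
    ¬ (∃ C : ℝ, ∃ d₁ d₂ : ℕ, ∀ m n : ℕ, m ≤ n →
      ∀ (A : Fin m → EuclideanSpace ℝ (Fin 2)) (B : Fin n → EuclideanSpace ℝ (Fin 2)),
        ((({π : Fin m ↪ Fin n | ∃ t : EuclideanSpace ℝ (Fin 2),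
            ∀ σ : Fin m ↪ Fin n, σ ≠ π →
              ∑ i, ‖A i - (B (π i) + t)‖ ^ 2 < ∑ i, ‖A i - (B (σ i) + t)‖ ^ 2}
            : Set (Fin m ↪ Fin n)).ncard : ℕ) : ℝ)
          ≤ C * ((m : ℝ) + 1) ^ d₁ * ((n : ℝ) + 1) ^ d₂) :=
  H88RNC.final_of
    (H88RNC.h3_of_B3 fun g K hg hK => ⟨gridNet g K (hV g K hg hK), le_rfl, le_rfl, le_rfl⟩)
    (fun D N => RNB.H12 D N)

end RNB.B3

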