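import Pool.Agent.H75.RNC.Final
import Pool.Agent.H90.RNB.Vert
import Pool.Agent.H57.RN.B3FV

/-! # Project RN, plan C: the vertical fields (helper57, helper90) plugged in -/

set_option autoImplicit false

namespace RNB.B3

theorem vFields (g K : ℕ) (hK : 1 ≤ K) : VFields g K where
  FV_supp := fun τ x y h => by
    have h1 := H57B3.FV_supp h
    have h2 := h_W_nonneg (g := g) (K := K)
    refine ⟨?_, ?_, ?_, ?_⟩ <;> omega
  FV_dvd := fun τ x y h => H57B3.FV_dvd h
  FV_gap := fun τ x y hl h => H57B3.FV_gap hl h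
  FV_bound := fun x y => (H57B3.FV_bound hK x y).trans (by
    push_cast
    exact pow_le_pow_right₀ (by norm_num) (Nat.le_succ K))
  V_pos := V_pos
  V_neg := V_neg
  V_flat := V_flat
  V_super := fun τ x y hτ h => H57B3.V_super hτ h

end RNB.B3
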